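import Pool.Agent.Helper55_GLK.Frame

/-!
# Giant link theorem (MP_e0fe99_lc), part 3: the frames over a path of directions are connected
-/

set_option autoImplicit false

namespace Pool.Agent.GLK.H55

open Pool.Agent.LCK Topology

/-- the unit vectors orthogonal to a unit vector form a connected circle -/
theorem circle_pre {e : E3} (he : inner ℝ e e = 1) :
    IsPreconnected {u : E3 | OF e u} := by
  have hne : e ≠ 0 := by
    rintro rfl
    simp at he
  have : Fact (Module.finrank ℝ E3 = 2 + 1) := ⟨by simp⟩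
  have h1 : Module.finrank ℝ (ℝ ∙ e)ᗮ = 2 := Submodule.finrank_orthogonal_span_singleton hne
  have h2 : (1 : Cardinal) < Module.rank ℝ (ℝ ∙ e)ᗮ := by
    have h3 : 1 < Module.finrank ℝ (ℝ ∙ e)ᗮ := by rw [h1]; norm_num
    have h4 := Module.lt_rank_of_lt_finrank h3
    exact_mod_cast h4
  have h5 := isPreconnected_sphere h2 (0 : (ℝ ∙ e)ᗮ) 1
  have h6 := h5.image (fun x : (ℝ ∙ e)ᗮ => (x : E3)) continuous_subtype_val.continuousOn
  have h7 : {u : E3 | OF e u} = (fun x : (ℝ ∙ e)ᗮ => (x : E3)) '' Metric.sphere 0 1 := by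
    ext u
    constructor
    · intro hu
      have hu' : u ∈ (ℝ ∙ e)ᗮ := by
        rw [Submodule.mem_orthogonal_singleton_iff_inner_right]
        exact hu.eu
      refine ⟨⟨u, hu'⟩, ?_, rfl⟩
      rw [mem_sphere_zero_iff_norm]
      show ‖u‖ = 1
      have h8 := hu.uu
      rw [real_inner_self_eq_norm_sq] at h8
      nlinarith [norm_nonneg u]
    · rintro ⟨x, hx, rfl⟩
      rw [mem_sphere_zero_iff_norm] at hx
      refine ⟨he, ?_, ?_⟩
      · rw [real_inner_self_eq_norm_sq]
        have : ‖(x : E3)‖ = 1 := hx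
        rw [this]; norm_num
      · have h8 := x.2
        rw [Submodule.mem_orthogonal_singleton_iff_inner_right] at h8
        exact h8
  rw [h7]
  exact h6

theorem circle_nonempty {e : E3} (he : inner ℝ e e = 1) : ∃ u : E3, OF e u := by
  have hne : e ≠ 0 := by
    rintro rfl
    simp at he
  have : Fact (Module.finrank ℝ E3 = 2 + 1) := ⟨by simp⟩
  have h1 : Module.finrank ℝ (ℝ ∙ e)ᗮ = 2 := Submodule.finrank_orthogonal_span_singleton hne
  have : Nontrivial (ℝ ∙ e)ᗮ := Module.nontrivial_of_finrank_pos (R := ℝ) (by rw [h1]; norm_num)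
  obtain ⟨x, hx⟩ := exists_norm_eq (ℝ ∙ e)ᗮ (zero_le_one (α := ℝ))
  refine ⟨x, he, ?_, ?_⟩
  · rw [real_inner_self_eq_norm_sq]
    have : ‖(x : E3)‖ = 1 := hx
    rw [this]; norm_num
  · have h8 := x.2
    rw [Submodule.mem_orthogonal_singleton_iff_inner_right] at h8
    exact h8

/-- connected inside `S` -/
def RC {X : Type} [TopologicalSpace X] (S : Set X) (x y : X) : Prop :=
  ∃ T ⊆ S, IsPreconnected T ∧ x ∈ T ∧ y ∈ T

theorem RC.symm {X : Type} [TopologicalSpace X] {S : Set X} {x y : X} (h : RC S x y) :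
    RC S y x := by
  obtain ⟨T, h1, h2, h3, h4⟩ := h
  exact ⟨T, h1, h2, h4, h3⟩

theorem RC.trans {X : Type} [TopologicalSpace X] {S : Set X} {x y z : X} (h : RC S x y)
    (h' : RC S y z) : RC S x z := by
  obtain ⟨T, h1, h2, h3, h4⟩ := h
  obtain ⟨T', h1', h2', h3', h4'⟩ := h'
  exact ⟨T ∪ T', Set.union_subset h1 h1', h2.union y h4 h3' h2', Or.inl h3, Or.inr h4'⟩

theorem pre_of_RC {X : Type} [TopologicalSpace X] {S : Set X}
    (h : ∀ x ∈ S, ∀ y ∈ S, RC S x y) : IsPreconnected S := by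
  apply isPreconnected_of_forall_pair
  intro x hx y hy
  obtain ⟨T, h1, h2, h3, h4⟩ := h x hx y hy
  exact ⟨T, h1, h3, h4, h2⟩

/-- Gram-Schmidt -/
noncomputable def gs (e u : E3) : E3 := u - (inner ℝ e u : ℝ) • e

theorem gs_OF {e u : E3} (he : inner ℝ e e = 1) (h : gs e u ≠ 0) :
    OF e (‖gs e u‖⁻¹ • gs e u) := by
  have hn : ‖gs e u‖ ≠ 0 := norm_ne_zero_iff.mpr h
  refine ⟨he, ?_, ?_⟩
  · rw [inner_smul_left, inner_smul_right, real_inner_self_eq_norm_sq]
    simp
    field_simp
  · rw [inner_smul_right]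
    have : inner ℝ e (gs e u) = 0 := by
      unfold gs
      rw [inner_sub_right, inner_smul_right, he]
      ring
    rw [this, mul_zero]

/-- the bundle of frames over a path of directions is connected -/
theorem bundle_pre (e : ℝ → E3) (hc : Continuous e) (he : ∀ t, inner ℝ (e t) (e t) = 1) :
    IsPreconnected {p : ℝ × E3 | OF (e p.1) p.2} := by
  set S : Set (ℝ × E3) := {p : ℝ × E3 | OF (e p.1) p.2} with hS
  have hcirc : ∀ t u u', OF (e t) u → OF (e t) u' → RC S (t, u) (t, u') := by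
    intro t u u' hu hu'
    refine ⟨(fun u : E3 => (t, u)) '' {u : E3 | OF (e t) u}, ?_, ?_, ⟨u, hu, rfl⟩, ⟨u', hu', rfl⟩⟩
    · rintro _ ⟨w, hw, rfl⟩
      exact hw
    · exact (circle_pre (he t)).image _ (by fun_prop)
  have key : ∀ s t : ℝ, ∀ u u', OF (e s) u → OF (e t) u' → RC S (s, u) (t, u') := by
    intro s t
    refine (isPreconnected_univ (α := ℝ)).induction₂
      (fun s t => ∀ u u', OF (e s) u → OF (e t) u' → RC S (s, u) (t, u')) ?_ ?_ ?_
      (Set.mem_univ s) (Set.mem_univ t)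
    · intro s _
      obtain ⟨u0, hu0⟩ := circle_nonempty (he s)
      have hg : Continuous fun r => gs (e r) u0 := by
        unfold gs
        fun_prop
      have hg0 : gs (e s) u0 = u0 := by
        unfold gs
        rw [hu0.eu, zero_smul, sub_zero]
      have hu0' : u0 ≠ 0 := by
        rintro rfl
        have := hu0.uu
        simp at this
      have hev : ∀ᶠ r in 𝓝 s, gs (e r) u0 ≠ 0 := by
        have h1 : Filter.Tendsto (fun r => gs (e r) u0) (𝓝 s) (𝓝 u0) := by
          have h2 := hg.tendsto s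
          rwa [hg0] at h2
        exact h1.eventually_ne hu0'
      rw [nhdsWithin_univ]
      obtain ⟨δ, hδ, hball⟩ := Metric.eventually_nhds_iff_ball.mp hev
      filter_upwards [Metric.ball_mem_nhds s hδ] with t ht u u' hu hu'
      have hseg : Set.uIcc s t ⊆ Metric.ball s δ := by
        rw [← segment_eq_uIcc]
        exact (convex_ball s δ).segment_subset (Metric.mem_ball_self hδ) ht
      have hT : IsPreconnected ((fun r => (r, ‖gs (e r) u0‖⁻¹ • gs (e r) u0)) '' Set.uIcc s t) := by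
        apply IsPreconnected.image
        · rw [← segment_eq_uIcc]
          exact (convex_segment s t).isPreconnected
        · have k1 : ContinuousOn (fun r => ‖gs (e r) u0‖⁻¹) (Set.uIcc s t) :=
            ContinuousOn.inv₀ hg.norm.continuousOn
              (fun r hr => norm_ne_zero_iff.mpr (hball r (hseg hr)))
          exact ContinuousOn.prodMk continuousOn_id (k1.smul hg.continuousOn)
      have hTS : ((fun r => (r, ‖gs (e r) u0‖⁻¹ • gs (e r) u0)) '' Set.uIcc s t) ⊆ S := by
        rintro _ ⟨r, hr, rfl⟩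
        exact gs_OF (he r) (hball r (hseg hr))
      have h1 : RC S (s, ‖gs (e s) u0‖⁻¹ • gs (e s) u0) (t, ‖gs (e t) u0‖⁻¹ • gs (e t) u0) :=
        ⟨_, hTS, hT, ⟨s, Set.left_mem_uIcc, rfl⟩, ⟨t, Set.right_mem_uIcc, rfl⟩⟩
      have h2 := hcirc s u _ hu (gs_OF (he s) (hball s (Metric.mem_ball_self hδ)))
      have h3 := hcirc t _ u' (gs_OF (he t) (hball t ht)) hu'
      exact (h2.trans h1).trans h3
    · intro x y z _ _ _ hxy hyz u u' hu hu'
      obtain ⟨w, hw⟩ := circle_nonempty (he y)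
      exact (hxy u w hu hw).trans (hyz w u' hw hu')
    · intro x y _ _ hxy u u' hu hu'
      exact (hxy u' u hu' hu).symm
  apply pre_of_RC
  rintro ⟨s, u⟩ hu ⟨t, u'⟩ hu'
  exact key s t u u' hu hu'

end Pool.Agent.GLK.H55
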