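import Pool.Agent.Helper55_GLK.Split

/-!
# Giant link theorem (MP_e0fe99_lc), part 2: orthonormal frames
-/

set_option autoImplicit false

namespace Pool.Agent.GLK.H55

open Pool.Agent.LCK Topology

/-- cross product -/
noncomputable def cr (a b : E3) : E3 :=
  !₂[a 1 * b 2 - a 2 * b 1, a 2 * b 0 - a 0 * b 2, a 0 * b 1 - a 1 * b 0]

theorem inner_eq (a b : E3) : inner ℝ a b = a 0 * b 0 + a 1 * b 1 + a 2 * b 2 := by
  simp [PiLp.inner_apply, Fin.sum_univ_three, mul_comm]

theorem cr_continuous : Continuous fun p : E3 × E3 => cr p.1 p.2 := by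
  unfold cr
  apply (PiLp.continuous_toLp 2 _).comp
  apply continuous_pi
  intro i
  fin_cases i <;> simp <;> fun_prop

theorem inner_cr_left (a b : E3) : inner ℝ a (cr a b) = 0 := by
  rw [inner_eq]; simp [cr]; ring

theorem inner_cr_right (a b : E3) : inner ℝ b (cr a b) = 0 := by
  rw [inner_eq]; simp [cr]; ring

theorem norm_cr {a b : E3} (ha : inner ℝ a a = 1) (hb : inner ℝ b b = 1) (hab : inner ℝ a b = 0) :
    inner ℝ (cr a b) (cr a b) = 1 := by
  rw [inner_eq] at *
  simp only [cr, PiLp.toLp_apply]
  simp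
  have h : (a 1 * b 2 - a 2 * b 1) * (a 1 * b 2 - a 2 * b 1) +
      (a 2 * b 0 - a 0 * b 2) * (a 2 * b 0 - a 0 * b 2) +
      (a 0 * b 1 - a 1 * b 0) * (a 0 * b 1 - a 1 * b 0) =
      (a 0 * a 0 + a 1 * a 1 + a 2 * a 2) * (b 0 * b 0 + b 1 * b 1 + b 2 * b 2) -
      (a 0 * b 0 + a 1 * b 1 + a 2 * b 2) * (a 0 * b 0 + a 1 * b 1 + a 2 * b 2) := by ring
  rw [h, ha, hb, hab]
  ring

/-- the frame `(e, u, e × u)` is orthonormal -/
structure OF (e u : E3) : Prop where
  ee : inner ℝ e e = 1
  uu : inner ℝ u u = 1
  eu : inner ℝ e u = 0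

/-- the linear map with values `e`, `u`, `e × u` on the basis vectors -/
noncomputable def fr (e u x : E3) : E3 := x 0 • e + x 1 • u + x 2 • cr e u

/-- coordinates with respect to the frame -/
noncomputable def co (e u y : E3) : E3 := !₂[inner ℝ e y, inner ℝ u y, inner ℝ (cr e u) y]

theorem fr_continuous : Continuous fun p : (E3 × E3) × E3 => fr p.1.1 p.1.2 p.2 := by
  unfold fr
  have h := cr_continuous
  have h2 : Continuous fun p : (E3 × E3) × E3 => cr p.1.1 p.1.2 := h.comp continuous_fst
  fun_prop

theorem co_continuous : Continuous fun p : (E3 × E3) × E3 => co p.1.1 p.1.2 p.2 := by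
  unfold co
  have h := cr_continuous
  have h2 : Continuous fun p : (E3 × E3) × E3 => cr p.1.1 p.1.2 := h.comp continuous_fst
  apply (PiLp.continuous_toLp 2 _).comp
  apply continuous_pi
  intro i
  fin_cases i
  · simp; fun_prop
  · simp; fun_prop
  · simp; fun_prop

theorem norm_fr {e u : E3} (h : OF e u) (x : E3) : inner ℝ (fr e u x) (fr e u x) = inner ℝ x x := by
  have h1 := norm_cr h.ee h.uu h.eu
  have h2 := inner_cr_left e u
  have h3 := inner_cr_right e u
  have h4 : inner ℝ u e = 0 := by rw [real_inner_comm]; exact h.eu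
  have h5 : inner ℝ (cr e u) e = 0 := by rw [real_inner_comm]; exact h2
  have h6 : inner ℝ (cr e u) u = 0 := by rw [real_inner_comm]; exact h3
  rw [inner_eq x x]
  unfold fr
  simp only [inner_add_left, inner_add_right, inner_smul_left, inner_smul_right, h.ee, h.uu, h.eu,
    h1, h2, h3, h4, h5, h6]
  simp

/-- the frame map as a linear isometry -/
noncomputable def frL {e u : E3} (h : OF e u) : E3 →ₗᵢ[ℝ] E3 where
  toFun := fr e u
  map_add' x y := by
    simp only [fr, PiLp.add_apply, add_smul]
    abel
  map_smul' c x := by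
    simp only [fr, PiLp.smul_apply, smul_eq_mul, mul_smul, smul_add, RingHom.id_apply]
  norm_map' x := by
    have h1 := norm_fr h x
    rw [real_inner_self_eq_norm_sq, real_inner_self_eq_norm_sq] at h1
    exact (pow_left_inj₀ (norm_nonneg _) (norm_nonneg _) (by norm_num)).mp h1

theorem co_fr {e u : E3} (h : OF e u) (x : E3) : co e u (fr e u x) = x := by
  have h1 := norm_cr h.ee h.uu h.eu
  have h2 := inner_cr_left e u
  have h3 := inner_cr_right e u
  have h4 : inner ℝ u e = 0 := by rw [real_inner_comm]; exact h.eu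
  have h5 : inner ℝ (cr e u) e = 0 := by rw [real_inner_comm]; exact h2
  have h6 : inner ℝ (cr e u) u = 0 := by rw [real_inner_comm]; exact h3
  have e0 : inner ℝ e (fr e u x) = x 0 := by
    unfold fr
    simp only [inner_add_right, inner_smul_right, h.ee, h.eu, h2]
    ring
  have e1 : inner ℝ u (fr e u x) = x 1 := by
    unfold fr
    simp only [inner_add_right, inner_smul_right, h.uu, h3, h4]
    ring
  have e2 : inner ℝ (cr e u) (fr e u x) = x 2 := by
    unfold fr
    simp only [inner_add_right, inner_smul_right, h1, h5, h6]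
    ring
  unfold co
  rw [e0, e1, e2]
  ext i
  fin_cases i <;> simp

theorem fr_co {e u : E3} (h : OF e u) (y : E3) : fr e u (co e u y) = y := by
  obtain ⟨x, rfl⟩ : ∃ x, fr e u x = y := by
    have h1 : Function.Surjective (frL h) :=
      (LinearIsometry.toLinearIsometryEquiv (frL h) rfl).surjective
    exact h1 y
  rw [co_fr h]

theorem dist_fr {e u : E3} (h : OF e u) (P x y : E3) :
    dist (P + fr e u x) (P + fr e u y) = dist x y := by
  rw [dist_add_left]
  exact (frL h).isometry.dist_eq x y

/-- rigid motions preserve configurations -/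
theorem CN_rigid {e u : E3} (h : OF e u) (P : E3) (l : ℕ → ℝ) (n : ℕ) (V : ℕ → E3) :
    CN l n (fun k => P + fr e u (V k)) ↔ CN l n V := by
  have hinj : Function.Injective fun x => P + fr e u x := by
    intro x y hxy
    have h1 := dist_fr h P x y
    rw [show P + fr e u x = P + fr e u y from hxy, dist_self] at h1
    exact dist_eq_zero.mp h1.symm
  have hseg : ∀ i, sg (fun k => P + fr e u (V k)) i = (fun x => P + fr e u x) '' sg V i := by
    intro i
    unfold sg
    have h1 := image_segment ℝ ((frL h).toLinearMap.toAffineMap + AffineMap.const ℝ E3 P)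
      (V i) (V (i + 1))
    have h2 : (⇑((frL h).toLinearMap.toAffineMap + AffineMap.const ℝ E3 P) : E3 → E3) =
        fun x => P + fr e u x := by
      funext x
      show fr e u x + P = P + fr e u x
      rw [add_comm]
    rw [h2] at h1
    exact h1.symm
  constructor
  · rintro ⟨h1, h2⟩
    refine ⟨fun k hk => ?_, fun i j hij hj => ?_⟩
    · rw [← h1 k hk, dist_fr h]
    · have h3 := h2 i j hij hj
      rw [hseg, hseg, ← Set.image_inter hinj] at h3
      split_ifs at h3 ⊢ with h4
      · apply hinj.image_injective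
        rw [h3, Set.image_singleton]
      · exact Set.image_eq_empty.mp h3
  · rintro ⟨h1, h2⟩
    refine ⟨fun k hk => ?_, fun i j hij hj => ?_⟩
    · rw [dist_fr h, h1 k hk]
    · rw [hseg, hseg, ← Set.image_inter hinj, h2 i j hij hj]
      split_ifs with h4
      · rw [Set.image_singleton]
      · exact Set.image_empty _

end Pool.Agent.GLK.H55
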