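import Pool.Agent.Helper55_GLK.Bundle

/-!
# Giant link theorem (MP_e0fe99_lc), part 4: both sides connected implies the whole connected
-/

set_option autoImplicit false

namespace Pool.Agent.GLK.H55

open Pool.Agent.LCK Topology

theorem ex_tuple {n : ℕ} (V : ℕ → E3) {k : ℕ} (hk : k ≤ n) :
    ex (fun k : Fin (n + 1) => V k) k = V k := by
  unfold ex
  rw [dif_pos (Nat.lt_succ_of_le hk)]

theorem ex_cont {n : ℕ} (k : ℕ) : Continuous fun v : Fin (n + 1) → E3 => ex v k := by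
  unfold ex
  by_cases h : k < n + 1
  · simp only [dif_pos h]
    exact continuous_apply _
  · simp only [dif_neg h]
    exact continuous_const

/-- the first basis vector -/
noncomputable def e0 : E3 := !₂[1, 0, 0]

/-- the second basis vector -/
noncomputable def e1 : E3 := !₂[0, 1, 0]

theorem OF01 : OF e0 e1 := by
  refine ⟨?_, ?_, ?_⟩ <;> rw [inner_eq] <;> simp [e0, e1]

theorem co01 (x : E3) : co e0 e1 x = x := by
  unfold co
  rw [inner_eq, inner_eq, inner_eq]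
  ext i
  fin_cases i <;> simp [e0, e1, cr]

theorem co_self {e u : E3} (h : OF e u) (a : ℝ) : co e u (a • e) = a • e0 := by
  have h2 : inner ℝ u e = 0 := by rw [real_inner_comm]; exact h.eu
  have h3 : inner ℝ (cr e u) e = 0 := by rw [real_inner_comm]; exact inner_cr_left e u
  unfold co
  rw [inner_smul_right, inner_smul_right, inner_smul_right, h.ee, h2, h3]
  ext i
  fin_cases i <;> simp [e0]

theorem fr_e0 {e u : E3} (h : OF e u) (a : ℝ) : fr e u (a • e0) = a • e := by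
  rw [← co_self h, fr_co h]

theorem fr_zero (e u : E3) : fr e u 0 = 0 := by
  simp [fr]

theorem co_zero (e u : E3) : co e u 0 = 0 := by
  unfold co
  ext i
  fin_cases i <;> simp

/-- the direction of the link `g` of the tuple `v` -/
noncomputable def dr {n : ℕ} (G : ℝ) (g : ℕ) (v : Fin (n + 1) → E3) : E3 :=
  G⁻¹ • (ex v (g + 1) - ex v g)

theorem dr_cont {n : ℕ} (G : ℝ) (g : ℕ) : Continuous fun v : Fin (n + 1) → E3 => dr G g v := by
  unfold dr
  exact ((ex_cont _).sub (ex_cont _)).const_smul G⁻¹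

theorem dr_unit {n : ℕ} {G : ℝ} {g : ℕ} {v : Fin (n + 1) → E3} (hG : 0 < G)
    (h : dist (ex v g) (ex v (g + 1)) = G) : inner ℝ (dr G g v) (dr G g v) = 1 := by
  unfold dr
  rw [real_inner_self_eq_norm_sq, norm_smul, ← dist_eq_norm, dist_comm, h, norm_inv,
    Real.norm_of_nonneg hG.le, inv_mul_cancel₀ hG.ne']
  norm_num

theorem dr_smul {n : ℕ} {G : ℝ} {g : ℕ} (v : Fin (n + 1) → E3) (hG : 0 < G) :
    G • dr G g v = ex v (g + 1) - ex v g := by
  unfold dr
  rw [smul_smul, mul_inv_cancel₀ hG.ne', one_smul]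

/-- right hand side over a fixed link -/
def F0 (l : ℕ → ℝ) (m : ℕ) : Set (Fin (m + 1) → E3) :=
  {z | z ∈ Conf (ch l m) ∧ ex z 0 = 0 ∧ ex z 1 = l 0 • e0}

/-- coordinates relative to the link 0 -/
noncomputable def rel {m : ℕ} (e u : E3) (P : E3) (V : ℕ → E3) : Fin (m + 1) → E3 :=
  fun k => co e u (V k - P)

theorem rel_mem {l : ℕ → ℝ} {m : ℕ} (hm : 0 < m) {e u : E3} (h : OF e u) {V : ℕ → E3}
    (hV : CN l m V) (h1 : V 1 - V 0 = l 0 • e) : rel e u (V 0) V ∈ F0 l m := by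
  refine ⟨?_, ?_, ?_⟩
  · refine (mem_conf l m (fun k : ℕ => co e u (V k - V 0))).mpr ?_
    rw [← CN_rigid h (V 0)]
    refine CN_congr (fun k _ => ?_) hV
    rw [fr_co h]
    abel
  · refine (ex_tuple (n := m) (fun k : ℕ => co e u (V k - V 0)) (Nat.zero_le m)).trans ?_
    rw [sub_self, co_zero]
  · refine (ex_tuple (n := m) (fun k : ℕ => co e u (V k - V 0)) (show 1 ≤ m from hm)).trans ?_
    rw [h1, co_self h]

theorem path_of_joined {X : Type} [TopologicalSpace X] {S : Set X} {a b : X}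
    (h : JoinedIn S a b) : ∃ c : ℝ → X, Continuous c ∧ (∀ t, c t ∈ S) ∧ c 0 = a ∧ c 1 = b := by
  refine ⟨h.somePath.extend, h.somePath.continuous_extend, ?_, h.somePath.extend_zero,
    h.somePath.extend_one⟩
  intro t
  have h1 : h.somePath.extend t ∈ Set.range h.somePath := by
    rw [← Path.extend_range]
    exact ⟨t, rfl⟩
  obtain ⟨s, hs⟩ := h1
  rw [← hs]
  exact h.somePath_mem s

theorem F0_pre {l : ℕ → ℝ} {m : ℕ} (hl : ∀ k, 0 < l k) (hm : 0 < m)
    (hj : ∀ c ∈ Conf (ch l m), ∀ c' ∈ Conf (ch l m), JoinedIn (Conf (ch l m)) c c') :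
    IsPreconnected (F0 l m) := by
  apply pre_of_RC
  rintro z ⟨hz, hz0, hz1⟩ z' ⟨hz', hz0', hz1'⟩
  obtain ⟨c, hc, hcS, hc0, hc1⟩ := path_of_joined (hj z hz z' hz')
  have hCN : ∀ t, CN l m (ex (c t)) := fun t => (mem_conf' l m (c t)).mp (hcS t)
  have hun : ∀ t, inner ℝ (dr (l 0) 0 (c t)) (dr (l 0) 0 (c t)) = 1 :=
    fun t => dr_unit (hl 0) ((hCN t).1 0 hm)
  have hcd : Continuous fun t => dr (l 0) 0 (c t) := (dr_cont _ _).comp hc
  have hB := bundle_pre (fun t => dr (l 0) 0 (c t)) hcd hun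
  let Ψ : ℝ × E3 → (Fin (m + 1) → E3) := fun p =>
    rel (dr (l 0) 0 (c p.1)) p.2 (ex (c p.1) 0) (ex (c p.1))
  have hΨ : Continuous Ψ := by
    apply continuous_pi
    intro k
    show Continuous fun p : ℝ × E3 =>
      co (dr (l 0) 0 (c p.1)) p.2 (ex (c p.1) k - ex (c p.1) 0)
    have k1 : Continuous fun p : ℝ × E3 => ((dr (l 0) 0 (c p.1), p.2),
        ex (c p.1) k - ex (c p.1) 0) := by
      refine Continuous.prodMk (Continuous.prodMk (hcd.comp continuous_fst) continuous_snd) ?_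
      exact ((ex_cont _).comp (hc.comp continuous_fst)).sub
        ((ex_cont _).comp (hc.comp continuous_fst))
    exact co_continuous.comp k1
  have hend : ∀ (t : ℝ) (w : Fin (m + 1) → E3), c t = w → ex w 0 = 0 → ex w 1 = l 0 • e0 →
      OF (dr (l 0) 0 (c t)) e1 ∧ Ψ (t, e1) = w := by
    intro t w hw h0 h1
    have hd : dr (l 0) 0 (c t) = e0 := by
      unfold dr
      rw [hw, zero_add, h1, h0, sub_zero, smul_smul, inv_mul_cancel₀ (hl 0).ne', one_smul]
    refine ⟨by rw [hd]; exact OF01, ?_⟩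
    show rel (dr (l 0) 0 (c t)) e1 (ex (c t) 0) (ex (c t)) = w
    rw [hd]
    unfold rel
    rw [hw, h0]
    have h3 : ∀ k : Fin (m + 1), co e0 e1 (ex w k - 0) = ex w k := by
      intro k
      rw [sub_zero, co01]
    rw [funext h3]
    exact ex_val w
  refine ⟨Ψ '' {p : ℝ × E3 | OF (dr (l 0) 0 (c p.1)) p.2}, ?_, hB.image _ hΨ.continuousOn,
    ⟨(0, e1), (hend 0 z hc0 hz0 hz1).1, (hend 0 z hc0 hz0 hz1).2⟩,
    ⟨(1, e1), (hend 1 z' hc1 hz0' hz1').1, (hend 1 z' hc1 hz0' hz1').2⟩⟩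
  rintro _ ⟨⟨t, u⟩, hu, rfl⟩
  refine rel_mem hm hu (hCN t) ?_
  rw [dr_smul _ (hl 0), zero_add]

/-- the whole chain from the left part `x`, the frame vector `u` and the right part `z` -/
noncomputable def glue {a m : ℕ} (G : ℝ) (g : ℕ) (x : Fin (a + 1) → E3) (u : E3)
    (z : Fin (m + 1) → E3) : ℕ → E3 :=
  fun k => if k ≤ g then ex x k else ex x g + fr (dr G g x) u (ex z (k - g))

theorem glue_cont {X : Type} [TopologicalSpace X] {a m : ℕ} (G : ℝ) (g k : ℕ)
    {x : X → (Fin (a + 1) → E3)} {u : X → E3} {z : X → (Fin (m + 1) → E3)}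
    (hx : Continuous x) (hu : Continuous u) (hz : Continuous z) :
    Continuous fun p => glue G g (x p) (u p) (z p) k := by
  unfold glue
  by_cases h : k ≤ g
  · simp only [if_pos h]
    exact (ex_cont _).comp hx
  · simp only [if_neg h]
    have k1 : Continuous fun p => ((dr G g (x p), u p), ex (z p) (k - g)) :=
      Continuous.prodMk (Continuous.prodMk ((dr_cont _ _).comp hx) hu) ((ex_cont _).comp hz)
    exact ((ex_cont _).comp hx).add (fr_continuous.comp k1)

theorem glue_mem {l : ℕ → ℝ} {g n : ℕ} (hl : ∀ k, 0 < l k) (hg : g < n)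
    (hG : ∑ k ∈ Finset.range g, l k + ∑ k ∈ Finset.Ico (g + 1) n, l k ≤ l g)
    {x : Fin (g + 2) → E3} (hx : x ∈ Conf (ch l (g + 1))) {u : E3}
    (hu : OF (dr (l g) g x) u) {z : Fin (n - g + 1) → E3}
    (hz : z ∈ F0 (fun k => l (g + k)) (n - g)) :
    CN l n (glue (l g) g x u z) := by
  obtain ⟨hz, hz0, hz1⟩ := hz
  have hz1' : ex z 1 = l g • e0 := hz1
  have hgg : glue (l g) g x u z g = ex x g := if_pos le_rfl
  have hg1 : ∀ k, 0 < k → glue (l g) g x u z (g + k) =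
      ex x g + fr (dr (l g) g x) u (ex z k) := by
    intro k hk
    have h1 : ¬ (g + k ≤ g) := by omega
    unfold glue
    rw [if_neg h1, Nat.add_sub_cancel_left]
  rw [split hl hg hG]
  constructor
  · refine CN_congr (fun k hk => ?_) ((mem_conf' l (g + 1) x).mp hx)
    rcases Nat.lt_or_ge g k with h | h
    · obtain rfl : k = g + 1 := by omega
      rw [hg1 1 (by norm_num), hz1', fr_e0 hu, dr_smul _ (hl g)]
      abel
    · exact (if_pos h).symm
  · refine CN_congr (fun k hk => ?_) ((CN_rigid hu (ex x g) _ _ _).mpr ((mem_conf' _ _ z).mp hz))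
    rcases Nat.eq_zero_or_pos k with h | h
    · subst h
      rw [hz0, fr_zero, add_zero, add_zero, hgg]
    · rw [hg1 k h]

theorem unglue {l : ℕ → ℝ} {g n : ℕ} (hl : ∀ k, 0 < l k) (hg : g < n)
    (w : Fin (n + 1) → E3) (x : Fin (g + 2) → E3) (hx : ∀ k ≤ g + 1, ex x k = ex w k) {u : E3}
    (hu : OF (dr (l g) g x) u)
    (hR : CN (fun k => l (g + k)) (n - g) (fun k => ex w (g + k))) :
    ∃ z ∈ F0 (fun k => l (g + k)) (n - g), ∀ k ≤ n, glue (l g) g x u z k = ex w k := by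
  have hxg : ex x g = ex w g := hx g (Nat.le_succ g)
  have hxg1 : ex x (g + 1) = ex w (g + 1) := hx (g + 1) le_rfl
  have h1 : (fun k => ex w (g + k)) 1 - (fun k => ex w (g + k)) 0 =
      (fun k => l (g + k)) 0 • dr (l g) g x := by
    show ex w (g + 1) - ex w g = l g • dr (l g) g x
    rw [dr_smul _ (hl g), hxg, hxg1]
  refine ⟨_, rel_mem (Nat.sub_pos_of_lt hg) hu hR h1, ?_⟩
  intro k hk
  unfold glue
  split_ifs with h
  · exact hx k (by omega)
  · have h5 : ex (rel (m := n - g) (dr (l g) g x) u ((fun k => ex w (g + k)) 0)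
        (fun k => ex w (g + k))) (k - g) =
        co (dr (l g) g x) u (ex w (g + (k - g)) - ex w g) :=
      ex_tuple (fun k : ℕ => co (dr (l g) g x) u (ex w (g + k) - ex w g)) (by omega)
    rw [h5, fr_co hu, hxg, show g + (k - g) = k by omega]
    abel

theorem whole_pre {l : ℕ → ℝ} {g n : ℕ} (hl : ∀ k, 0 < l k) (hg : g < n)
    (hG : ∑ k ∈ Finset.range g, l k + ∑ k ∈ Finset.Ico (g + 1) n, l k ≤ l g)
    (hj : ∀ c ∈ Conf (ch l (g + 1)), ∀ c' ∈ Conf (ch l (g + 1)),
      JoinedIn (Conf (ch l (g + 1))) c c')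
    (hF : IsPreconnected (F0 (fun k => l (g + k)) (n - g))) :
    IsPreconnected (Conf (ch l n)) := by
  have hL : ∀ v ∈ Conf (ch l n), (fun k : Fin (g + 2) => ex v k) ∈ Conf (ch l (g + 1)) := by
    intro v hv
    exact (mem_conf l (g + 1) (ex v)).mpr
      ((split hl hg hG _).mp ((mem_conf' l n v).mp hv)).1
  apply pre_of_RC
  intro v hv v' hv'
  obtain ⟨c, hc, hcS, hc0, hc1⟩ := path_of_joined (hj _ (hL v hv) _ (hL v' hv'))
  have hCN : ∀ t, CN l (g + 1) (ex (c t)) := fun t => (mem_conf' l (g + 1) (c t)).mp (hcS t)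
  have hun : ∀ t, inner ℝ (dr (l g) g (c t)) (dr (l g) g (c t)) = 1 :=
    fun t => dr_unit (hl g) ((hCN t).1 g (Nat.lt_succ_self g))
  have hcd : Continuous fun t => dr (l g) g (c t) := (dr_cont _ _).comp hc
  have hB := bundle_pre (fun t => dr (l g) g (c t)) hcd hun
  obtain ⟨Ψ, hΨd⟩ : ∃ Ψ : (ℝ × E3) × (Fin (n - g + 1) → E3) → (Fin (n + 1) → E3),
      ∀ p k, Ψ p k = glue (l g) g (c p.1.1) p.1.2 p.2 k := ⟨_, fun _ _ => rfl⟩
  have hΨ : Continuous Ψ := by
    apply continuous_pi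
    intro k
    simp only [hΨd]
    exact glue_cont (l g) g k (hc.comp (continuous_fst.comp continuous_fst))
      (continuous_snd.comp continuous_fst) continuous_snd
  have hend : ∀ (t : ℝ) (w : Fin (n + 1) → E3), w ∈ Conf (ch l n) →
      c t = (fun k : Fin (g + 2) => ex w k) →
      w ∈ Ψ '' ({p : ℝ × E3 | OF (dr (l g) g (c p.1)) p.2} ×ˢ F0 (fun k => l (g + k)) (n - g)) := by
    intro t w hw hcw
    obtain ⟨u, hu⟩ := circle_nonempty (hun t)
    have hR := ((split hl hg hG _).mp ((mem_conf' l n w).mp hw)).2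
    have hx : ∀ k ≤ g + 1, ex (c t) k = ex w k := by
      intro k hk
      rw [hcw]
      exact ex_tuple (ex w) hk
    obtain ⟨z, hz, hzk⟩ := unglue hl hg w (c t) hx hu hR
    refine ⟨((t, u), z), ⟨hu, hz⟩, ?_⟩
    rw [← ex_val w]
    funext k
    rw [hΨd]
    exact hzk k (Nat.lt_succ_iff.mp k.2)
  refine ⟨Ψ '' ({p : ℝ × E3 | OF (dr (l g) g (c p.1)) p.2} ×ˢ F0 (fun k => l (g + k)) (n - g)),
    ?_, (hB.prod hF).image _ hΨ.continuousOn, hend 0 v hv hc0, hend 1 v' hv' hc1⟩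
  rintro _ ⟨⟨⟨t, u⟩, z⟩, ⟨hu, hz⟩, rfl⟩
  have h6 : Ψ ((t, u), z) = fun k : Fin (n + 1) => glue (l g) g (c t) u z k := by
    funext k
    exact hΨd _ _
  rw [h6]
  exact (mem_conf l n _).mpr (glue_mem hl hg hG (hcS t) hu hz)

end Pool.Agent.GLK.H55
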