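import Pool.Agent.LCK.Defs

/-!
# Giant link theorem (MP_e0fe99_lc), part 1: chains indexed by the natural numbers, splitting
-/

set_option autoImplicit false

namespace Pool.Agent.GLK.H55

open Pool.Agent.LCK

/-- the link number `i` -/
def sg (V : ℕ → E3) (i : ℕ) : Set E3 := segment ℝ (V i) (V (i + 1))

/-- `V 0, …, V n` is a simple configuration of the chain with lengths `l 0, …, l (n-1)` -/
def CN (l : ℕ → ℝ) (n : ℕ) (V : ℕ → E3) : Prop :=
  (∀ k < n, dist (V k) (V (k + 1)) = l k) ∧
    ∀ i j, i < j → j < n → sg V i ∩ sg V j = if j = i + 1 then {V (i + 1)} else ∅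

/-- the chain with lengths `l 0, …, l (n-1)` -/
def ch (l : ℕ → ℝ) (n : ℕ) : Fin n → ℝ := fun k => l k

theorem mem_conf (l : ℕ → ℝ) (n : ℕ) (V : ℕ → E3) :
    (fun k : Fin (n + 1) => V k) ∈ Conf (ch l n) ↔ CN l n V := by
  constructor
  · rintro ⟨h1, h2⟩
    refine ⟨fun k hk => h1 ⟨k, hk⟩, fun i j hij hj => ?_⟩
    exact h2 ⟨i, hij.trans hj⟩ ⟨j, hj⟩ hij
  · rintro ⟨h1, h2⟩
    refine ⟨fun k => h1 k k.2, fun i j hij => ?_⟩
    exact h2 i j hij j.2

/-- extension of a tuple by `0` -/
noncomputable def ex {n : ℕ} (v : Fin (n + 1) → E3) : ℕ → E3 :=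
  fun k => if h : k < n + 1 then v ⟨k, h⟩ else 0

theorem ex_val {n : ℕ} (v : Fin (n + 1) → E3) : (fun k : Fin (n + 1) => ex v k) = v := by
  funext k
  show (if h : (k : ℕ) < n + 1 then v ⟨k, h⟩ else 0) = v k
  rw [dif_pos k.2]

theorem mem_conf' (l : ℕ → ℝ) (n : ℕ) (v : Fin (n + 1) → E3) :
    v ∈ Conf (ch l n) ↔ CN l n (ex v) := by
  rw [← mem_conf, ex_val]

theorem CN_congr {l : ℕ → ℝ} {n : ℕ} {V V' : ℕ → E3} (h : ∀ k ≤ n, V k = V' k) :
    CN l n V → CN l n V' := by
  rintro ⟨h1, h2⟩
  have hs : ∀ i < n, sg V' i = sg V i := by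
    intro i hi
    unfold sg
    rw [h i hi.le, h (i + 1) hi]
  refine ⟨fun k hk => ?_, fun i j hij hj => ?_⟩
  · rw [← h k hk.le, ← h (k + 1) hk]
    exact h1 k hk
  · rw [hs i (hij.trans hj), hs j hj, ← h (i + 1) (by omega)]
    exact h2 i j hij hj

theorem dist_sum {l : ℕ → ℝ} {V : ℕ → E3} {a b : ℕ} (hab : a ≤ b)
    (h : ∀ k, a ≤ k → k < b → dist (V k) (V (k + 1)) = l k) :
    dist (V a) (V b) ≤ ∑ k ∈ Finset.Ico a b, l k := by
  refine (dist_le_Ico_sum_dist V hab).trans (le_of_eq ?_)
  apply Finset.sum_congr rfl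
  intro k hk
  rw [Finset.mem_Ico] at hk
  exact h k hk.1 hk.2

theorem dist_sg_right {V : ℕ → E3} {i : ℕ} {x : E3} (hx : x ∈ sg V i) :
    dist x (V (i + 1)) ≤ dist (V i) (V (i + 1)) := by
  have h1 := (convex_closedBall (V (i + 1)) (dist (V i) (V (i + 1)))).segment_subset
    (x := V i) (y := V (i + 1)) (by simp) (by simp [dist_nonneg]) hx
  simpa using h1

theorem dist_sg_left {V : ℕ → E3} {i : ℕ} {x : E3} (hx : x ∈ sg V i) :
    dist (V i) x ≤ dist (V i) (V (i + 1)) := by
  have h1 := (convex_closedBall (V i) (dist (V i) (V (i + 1)))).segment_subset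
    (x := V i) (y := V (i + 1)) (by simp [dist_nonneg])
    (by simp [dist_comm]) hx
  rw [dist_comm]
  simpa using h1

/-- the two sides of a giant link do not see each other -/
theorem split {l : ℕ → ℝ} {g n : ℕ} (hl : ∀ k, 0 < l k) (hg : g < n)
    (hG : ∑ k ∈ Finset.range g, l k + ∑ k ∈ Finset.Ico (g + 1) n, l k ≤ l g) (V : ℕ → E3) :
    CN l n V ↔ CN l (g + 1) V ∧ CN (fun k => l (g + k)) (n - g) (fun k => V (g + k)) := by
  constructor
  · rintro ⟨h1, h2⟩
    refine ⟨⟨fun k hk => h1 k (by omega), fun i j hij hj => h2 i j hij (by omega)⟩,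
      ⟨fun k hk => h1 (g + k) (by omega), fun i j hij hj => ?_⟩⟩
    have h3 := h2 (g + i) (g + j) (by omega) (by omega)
    have e1 : (g + j = g + i + 1) ↔ j = i + 1 := by omega
    simp only [e1] at h3
    exact h3
  · rintro ⟨⟨a1, a2⟩, ⟨b1, b2⟩⟩
    have hd : ∀ k < n, dist (V k) (V (k + 1)) = l k := by
      intro k hk
      rcases Nat.lt_or_ge k (g + 1) with h | h
      · exact a1 k h
      · have h3 := b1 (k - g) (by omega)
        have e1 : g + (k - g) = k := by omega
        simp only [e1, ← add_assoc] at h3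
        exact h3
    refine ⟨hd, fun i j hij hj => ?_⟩
    rcases Nat.lt_or_ge j (g + 1) with h | h
    · exact a2 i j hij h
    rcases Nat.lt_or_ge i g with hi | hi
    · -- the left side against the right side
      rw [if_neg (by omega), Set.eq_empty_iff_forall_notMem]
      rintro x ⟨hxi, hxj⟩
      have c1 : dist x (V g) ≤ ∑ k ∈ Finset.range g, l k := by
        have d1 := dist_sg_right hxi
        rw [hd i (by omega)] at d1
        have d2 := dist_sum (l := l) (V := V) (a := i + 1) (b := g) hi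
          (fun k _ hk => hd k (by omega))
        have d3 : ∑ k ∈ Finset.range g, l k =
            ∑ k ∈ Finset.range i, l k + (l i + ∑ k ∈ Finset.Ico (i + 1) g, l k) := by
          rw [← Finset.sum_range_add_sum_Ico _ (show i ≤ g by omega),
            Finset.sum_eq_sum_Ico_succ_bot hi]
        have d4 : 0 ≤ ∑ k ∈ Finset.range i, l k := Finset.sum_nonneg fun k _ => (hl k).le
        have d5 := dist_triangle x (V (i + 1)) (V g)
        linarith
      have c2 : dist (V (g + 1)) x ≤ ∑ k ∈ Finset.Ico (g + 1) n, l k := by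
        have d1 := dist_sg_left hxj
        rw [hd j hj] at d1
        have d2 := dist_sum (l := l) (V := V) (a := g + 1) (b := j) h
          (fun k _ hk => hd k (by omega))
        have d3 : ∑ k ∈ Finset.Ico (g + 1) n, l k =
            ∑ k ∈ Finset.Ico (g + 1) j, l k + (l j + ∑ k ∈ Finset.Ico (j + 1) n, l k) := by
          rw [← Finset.sum_Ico_consecutive _ h hj.le, Finset.sum_eq_sum_Ico_succ_bot hj]
        have d4 : 0 ≤ ∑ k ∈ Finset.Ico (j + 1) n, l k := Finset.sum_nonneg fun k _ => (hl k).le
        have d5 := dist_triangle (V (g + 1)) (V j) x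
        linarith
      have c3 := hd g hg
      have c4 := dist_triangle (V g) x (V (g + 1))
      have c5 : dist (V g) x + dist x (V (g + 1)) = dist (V g) (V (g + 1)) := by
        apply le_antisymm _ c4
        rw [c3, dist_comm (V g) x, dist_comm x (V (g + 1))]
        linarith
      have c6 : x ∈ sg V g := by
        rw [dist_add_dist_eq_iff] at c5
        exact (mem_segment_iff_wbtw).mpr c5
      have c7 : x = V g := by
        have e1 : x ∈ sg V i ∩ sg V g := ⟨hxi, c6⟩
        rw [a2 i g hi (by omega)] at e1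
        split_ifs at e1 with h5
        · rw [h5]
          exact e1
        · exact absurd e1 (Set.notMem_empty x)
      have c8 : x = V (g + 1) := by
        have e1 : x ∈ sg V g ∩ sg V j := ⟨c6, hxj⟩
        have e2 := b2 0 (j - g) (by omega) (by omega)
        have e3 : g + (j - g) = j := by omega
        simp only [sg, add_zero, zero_add, e3, ← add_assoc] at e2
        unfold sg at e1
        rw [e2] at e1
        split_ifs at e1 with h5
        · exact e1
        · exact absurd e1 (Set.notMem_empty x)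
      have c9 := hl g
      rw [← c3, ← c7, ← c8, dist_self] at c9
      exact lt_irrefl _ c9
    · have h3 := b2 (i - g) (j - g) (by omega) (by omega)
      have e1 : (j - g = i - g + 1) ↔ j = i + 1 := by omega
      have e2 : g + (i - g) = i := by omega
      have e3 : g + (j - g) = j := by omega
      simp only [sg, e1, e2, e3, ← add_assoc] at h3
      exact h3

end Pool.Agent.GLK.H55
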