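import Pool.Agent.Helper55_GLK.Main
import Pool.Agent.Helper61_LC5.Top
import Pool.Agent.Helper15_LCK.UPS
import Pool.Agent.Helper92_LCK.REV
import Pool.Agent.Helper32_LCK.LPC
import Pool.Agent.Helper32_LCK.SNC
import Pool.Agent.Helper65_LCK.OPN
import Pool.Agent.Helper81_LCK.ADJ
import Pool.Agent.Helper83_LCK.DEN

/-!
# Giant link theorem (MP_e0fe99_lc), part 5: assembly
-/

set_option autoImplicit false

namespace Pool.Agent.GLK.H55

open Pool.Agent.LCK Topology

theorem lpc : LPCStmt := Pool.Agent.LCK.H32.lpc (Pool.Agent.LCK.H65o.opn Pool.Agent.LCK.H81.adj)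

theorem ups : UPSStmt := Pool.Agent.LCK.H15.ups Pool.Agent.LCK.H32.snc Pool.Agent.LCK.H83.den

theorem ch_ap (l : ℕ → ℝ) (n : ℕ) : ch l (n + 1) = ap (ch l n) (l n) := by
  funext k
  refine Fin.lastCases ?_ (fun j => ?_) k
  · unfold ap
    rw [Fin.snoc_last]
    rfl
  · unfold ap
    rw [Fin.snoc_castSucc]
    rfl

theorem ch_pr (l : ℕ → ℝ) (n : ℕ) : ch l (n + 1) = pr (l 0) (ch (fun k => l (k + 1)) n) := by
  funext k
  refine Fin.cases ?_ (fun j => ?_) k
  · rfl
  · rfl

theorem pre_ap {l : ℕ → ℝ} (hl : ∀ k, 0 < l k) (n : ℕ)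
    (h : IsPreconnected (Conf (ch l (n + 1)))) : IsPreconnected (Conf (ch l n)) := by
  rw [ch_ap] at h
  exact (ups n (ch l n) (fun k => hl k)).2 (l n) (hl n) h

theorem pre_prefix {l : ℕ → ℝ} (hl : ∀ k, 0 < l k) {n n' : ℕ} (hn : n ≤ n') :
    IsPreconnected (Conf (ch l n')) → IsPreconnected (Conf (ch l n)) := by
  induction n', hn using Nat.le_induction with
  | base => exact id
  | succ k _ ih => exact fun h => ih (pre_ap hl k h)

theorem pre_pr {l : ℕ → ℝ} (hl : ∀ k, 0 < l k) (n : ℕ)
    (h : IsPreconnected (Conf (ch l (n + 1)))) :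
    IsPreconnected (Conf (ch (fun k => l (k + 1)) n)) := by
  rw [ch_pr] at h
  obtain ⟨r1, r2⟩ := Pool.Agent.LCK.H92.rev n
  have h1 := (r2 _ _).mp h
  have h2 := (ups n _ (fun k => hl _)).2 (l 0) (hl 0) h1
  exact (r1 _).mp h2

theorem pre_suffix (g : ℕ) : ∀ {l : ℕ → ℝ}, (∀ k, 0 < l k) → ∀ m : ℕ,
    IsPreconnected (Conf (ch l (g + m))) → IsPreconnected (Conf (ch (fun k => l (g + k)) m)) := by
  induction g with
  | zero =>
    intro l hl m h
    have h1 : (fun k => l (0 + k)) = l := by
      funext k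
      rw [zero_add]
    rw [h1]
    rw [zero_add] at h
    exact h
  | succ g ih =>
    intro l hl m h
    have h1 : IsPreconnected (Conf (ch (fun k => l (k + 1)) (g + m))) := by
      apply pre_pr hl
      rw [show g + m + 1 = g + 1 + m by omega]
      exact h
    have h2 := ih (l := fun k => l (k + 1)) (fun k => hl _) m h1
    have h3 : (fun k => l (g + k + 1)) = fun k => l (g + 1 + k) := by
      funext k
      congr 1
      omega
    simp only [h3] at h2
    exact h2

theorem giant_pre {l : ℕ → ℝ} {g n : ℕ} (hl : ∀ k, 0 < l k) (hg : g < n)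
    (hG : ∑ k ∈ (Finset.range n).erase g, l k ≤ l g) :
    IsPreconnected (Conf (ch l n)) ↔ IsPreconnected (Conf (ch l (g + 1))) ∧
      IsPreconnected (Conf (ch (fun k => l (g + k)) (n - g))) := by
  have hG' : ∑ k ∈ Finset.range g, l k + ∑ k ∈ Finset.Ico (g + 1) n, l k ≤ l g := by
    have h1 := Finset.add_sum_erase (Finset.range n) l (Finset.mem_range.mpr hg)
    have h2 := Finset.sum_range_add_sum_Ico l hg.le
    rw [Finset.sum_eq_sum_Ico_succ_bot hg] at h2
    linarith
  constructor
  · intro h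
    refine ⟨pre_prefix hl hg h, ?_⟩
    apply pre_suffix g hl
    rw [Nat.add_sub_cancel' hg.le]
    exact h
  · rintro ⟨h1, h2⟩
    have j1 := lpc (g + 1) (ch l (g + 1)) (fun k => hl k) h1
    have j2 := lpc (n - g) (ch (fun k => l (g + k)) (n - g)) (fun k => hl _) h2
    have hF := F0_pre (l := fun k => l (g + k)) (m := n - g) (fun k => hl _)
      (Nat.sub_pos_of_lt hg) j2
    exact whole_pre hl hg hG' j1 hF

theorem five {l : ℕ → ℝ} (hl : ∀ k, 0 < l k) :
    Locked (ch l 5) ↔ l 1 + l 2 + l 3 ≤ min (l 0) (l 4) :=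
  (Pool.Agent.LC5.Top.top (ch l 5) (fun k => hl k)).1

theorem short {l : ℕ → ℝ} (hl : ∀ k, 0 < l k) {m : ℕ} (hm : m ≤ 4) :
    IsPreconnected (Conf (ch l m)) := by
  obtain ⟨l', hl'⟩ : ∃ l' : ℕ → ℝ, ∀ k, l' k = if k = 4 then l 1 / 2 else l k :=
    ⟨_, fun _ => rfl⟩
  have hpos : ∀ k, 0 < l' k := by
    intro k
    rw [hl' k]
    split_ifs
    · exact half_pos (hl 1)
    · exact hl k
  have h1 : ch l m = ch l' m := by
    funext k
    show l k = l' k
    rw [hl' k, if_neg (by have := k.2; omega)]
  rw [h1]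
  apply pre_prefix hpos (show m ≤ 5 by omega)
  by_contra hne
  have h2 := (five hpos).mp hne
  rw [hl' 0, hl' 1, hl' 2, hl' 3, hl' 4] at h2
  norm_num at h2
  have h3 := hl 1
  have h4 := hl 2
  have h5 := hl 3
  linarith [h2.2]

/-- the three statements for sequences of positive numbers -/
theorem all_pos {l : ℕ → ℝ} {g n : ℕ} (hl : ∀ k, 0 < l k) (hg : g < n)
    (hG : ∑ k ∈ (Finset.range n).erase g, l k ≤ l g) :
    (Locked (ch l n) ↔ Locked (ch l (g + 1)) ∨ Locked (ch (fun k => l (g + k)) (n - g))) ∧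
    (n ≤ g + 4 → (Locked (ch l n) ↔ Locked (ch l (g + 1)))) ∧
    (g ≤ 4 → n ≤ g + 5 → (Locked (ch l n) ↔ (g = 4 ∧ l 1 + l 2 + l 3 ≤ l 0) ∨
      (n = g + 5 ∧ l (g + 1) + l (g + 2) + l (g + 3) ≤ l (g + 4)))) := by
  have h0 : Locked (ch l n) ↔ Locked (ch l (g + 1)) ∨ Locked (ch (fun k => l (g + k)) (n - g)) := by
    unfold Locked
    rw [giant_pre hl hg hG, not_and_or]
  have hsub : ∀ k < n, k ≠ g → ∀ S : Finset ℕ, S ⊆ (Finset.range n).erase g →
      ∑ k ∈ S, l k ≤ l g := by
    intro k _ _ S hS
    exact (Finset.sum_le_sum_of_subset_of_nonneg hS (fun i _ _ => (hl i).le)).trans hG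
  refine ⟨h0, ?_, ?_⟩
  · intro hn
    rw [h0, or_iff_left]
    intro h
    exact h (short (fun k => hl _) (by omega))
  · intro hg4 hn5
    have hA : Locked (ch l (g + 1)) ↔ g = 4 ∧ l 1 + l 2 + l 3 ≤ l 0 := by
      rcases Nat.lt_or_ge g 4 with h | h
      · constructor
        · intro h1
          exact absurd (short hl (by omega)) h1
        · rintro ⟨h1, -⟩
          omega
      · obtain rfl : g = 4 := le_antisymm hg4 h
        show Locked (ch l 5) ↔ _
        rw [five hl, le_min_iff]
        have h1 : l 1 + l 2 + l 3 ≤ l 4 := by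
          have h2 := hsub 0 (by omega) (by norm_num) {1, 2, 3} (by
            intro x hx
            simp only [Finset.mem_insert, Finset.mem_singleton] at hx
            simp only [Finset.mem_erase, Finset.mem_range]
            omega)
          rw [Finset.sum_insert (by simp), Finset.sum_insert (by simp), Finset.sum_singleton] at h2
          linarith
        constructor
        · intro h2
          exact ⟨rfl, h2.1⟩
        · intro h2
          exact ⟨h2.2, h1⟩
    have hB : Locked (ch (fun k => l (g + k)) (n - g)) ↔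
        n = g + 5 ∧ l (g + 1) + l (g + 2) + l (g + 3) ≤ l (g + 4) := by
      rcases Nat.lt_or_ge (n - g) 5 with h | h
      · constructor
        · intro h1
          exact absurd (short (fun k => hl _) (by omega)) h1
        · rintro ⟨h1, -⟩
          omega
      · obtain rfl : n = g + 5 := by omega
        rw [show g + 5 - g = 5 by omega, five (fun k => hl _), le_min_iff]
        have h1 : l (g + 1) + l (g + 2) + l (g + 3) ≤ l g := by
          have h2 := hsub (g + 1) (by omega) (by omega) {g + 1, g + 2, g + 3} (by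
            intro x hx
            simp only [Finset.mem_insert, Finset.mem_singleton] at hx
            simp only [Finset.mem_erase, Finset.mem_range]
            omega)
          rw [Finset.sum_insert (by simp), Finset.sum_insert (by simp), Finset.sum_singleton] at h2
          linarith
        constructor
        · intro h2
          exact ⟨rfl, h2.2⟩
        · intro h2
          exact ⟨h1, h2.2⟩
    rw [h0, hA, hB]

end Pool.Agent.GLK.H55
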